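import Pool.Agent.Helper79.CF.Spec

/-! Swarm CF, part TST: Schnorr tests from summable sequences of clopen sets. -/

set_option autoImplicit false

namespace Pool.Agent.Helper52.CF.TST

open Finset Filter Topology MeasureTheory
open Pool.Agent.Helper88.EL Pool.Agent.Helper79.CF
open Pool.Agent.Y895.PM (U01 U01_univ)

theorem main : S_TST := by
  intro u B hu hB
  set cnd : ℕ → Bool := fun k => decide ((k + 1) ^ 2 * ct (u k) (B k) ≤ 2 ^ u k) with hcnd
  have hk2 : Computable fun k : ℕ => (k + 1) ^ 2 := by
    have h1 := comp_mul (α := ℕ) Computable.succ Computable.succ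
    refine h1.of_eq fun k => ?_
    rw [pow_two]
  have hcc : Computable cnd := comp_le (comp_mul hk2 (comp_ct hu hB)) (comp_pow2 hu)
  have hE : Computable₂ fun (k x : ℕ) => cnd k && B k x :=
    comp_and (hcc.comp Computable.fst) (Computable₂.comp hB Computable.fst Computable.snd)
  obtain ⟨v, D, hT, hb⟩ := solovay (u := u) (E := fun k x => cnd k && B k x) (K := 1) (k0 := 0)
    hu hE (by
      intro k _
      by_cases hc : cnd k = true
      · have h1 : U01.real (tset u (fun k x => cnd k && B k x) k) = (ct (u k) (B k) : ℝ) / 2 ^ u k := by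
          rw [← meas_ct]
          unfold tset
          simp only [hc, Bool.true_and]
        rw [h1, mul_div_assoc', div_le_iff₀ (by positivity)]
        have h2 : (k + 1) ^ 2 * ct (u k) (B k) ≤ 2 ^ u k := by
          simpa [hcnd] using hc
        have h3 : (((k + 1) ^ 2 * ct (u k) (B k) : ℕ) : ℝ) ≤ ((2 ^ u k : ℕ) : ℝ) := by
          exact_mod_cast h2
        push_cast at h3 ⊢
        linarith
      · have h1 : tset u (fun k x => cnd k && B k x) k = ∅ := by
          unfold tset
          rw [Bool.not_eq_true] at hc
          simp [hc]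
        rw [h1]
        simp)
  refine ⟨v, D, hT, fun b hf => ?_⟩
  refine (hb b hf).subset ?_
  rintro k ⟨h1, h2⟩
  show (cnd k && B k (num b (u k))) = true
  rw [h2, Bool.and_true]
  simpa [hcnd] using h1

end Pool.Agent.Helper52.CF.TST
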